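import Pool.Agent.LibLs83.Main

/-!
Diamond on points of cofinality `ω` at an ineffable cardinal.

If `κ` is supercompact then there is a complete Boolean algebra `B` such that in the Boolean-valued
universe `V^B` the cardinal `κ` is ineffable and diamond fails on a stationary set of points of `κ` of
cofinality `ω`.

The proof: let `P` be the lottery preparation (an iteration with Easton support of length `κ`, which
chooses at each inaccessible `b < κ` a directed closed forcing notion on at most `(2 ^ b)⁺` points).
Over `P` there is a `<κ`-directed closed iteration with supports of size less than `κ` of length
`(2 ^ κ)⁺` which adds a set `S` of points of cofinality `ω` by initial segments, and for each name of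
a sequence `(F α : α ∈ S)` a set `A` and a club `C` such that `F α ≠ A ∩ α` for all `α` in `C ∩ S`. The
set `S` stays stationary. The ineffability of `κ` is proved by lifting, for each given name of a
sequence, a supercompact embedding, with a master condition.
-/

namespace Pool.Agent.Results.MP_1eeea1_lc.DiamondFailsIneffable

open Cardinal Pool.Agent.LibTk83 Pool.Agent.LibDm83 Pool.Agent.LibLs83

theorem result (κ : Cardinal.{0}) (hκ : Supercompact κ) :
    ∃ (B : Type) (_ : CompleteBooleanAlgebra B) (_ : Nontrivial B),
      isIneffable (ck B κ.ord.ToType) = ⊤ ∧ diamondFails (ck B κ.ord.ToType) = ⊤ :=
  main κ hκ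

end Pool.Agent.Results.MP_1eeea1_lc.DiamondFailsIneffable
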